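import Pool.Agent.helper67.GrassHyp.NonExist3
import Pool.Agent.helper67.GrassHyp.Exist4

/-!
# The structure vector field in `(κ,μ,ν)_i`-nullity distributions

For `ε = 1` (the complex two-plane Grassmannian `SU(m+2)/S(U(2)×U(m))`) and for `ε = -1` (its
noncompact dual `SU(2,m)/S(U(2)×U(m))`), and for every scale `c > 0` of the invariant metric, a real
hypersurface whose structure vector field lies in a `(κ,μ,ν)_i`-nullity distribution on an open set
exists if and only if `m = 1`.
-/

set_option autoImplicit false

namespace Pool.Agent.Results.MP_f74330_gt.NullityIffOne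

open Pool.Agent.GrassHyp67

/-- For every `m ≥ 1` there is a real hypersurface of the Grassmannian (`ε = 1`) or of its dual
(`ε = -1`) whose structure vector field lies in a `(κ,μ,ν)_i`-nullity distribution if and only if
`m = 1`. -/
theorem result : ∀ (ε : ℝ), (ε = 1 ∨ ε = -1) → ∀ (c : ℝ), 0 < c → ∀ (m : ℕ), 1 ≤ m →
    (HasNullityHypersurface ε c m ↔ m = 1) := by
  intro ε hε c hc m hm
  have hε2 : ε * ε = 1 := by rcases hε with h | h <;> rw [h] <;> norm_num
  constructor
  · intro h
    by_contra hne
    exact nonexist hε2 hc (by omega) h
  · rintro rfl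
    exact exist_one hε hc

end Pool.Agent.Results.MP_f74330_gt.NullityIffOne
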